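import Pool.Agent.Run7.h283.EB.Fin
import Pool.Agent.Run7.h283.EB.CycG

/-!
# Non-Wieferich primes of number fields: almost all bases

The abc conjecture over a number field `K` implies that every `α` in `K`, not zero and not a root of unity, is
a good base: infinitely many primes `v` of `K` divide `α ^ (N v - 1) - 1` exactly once (they are not Wieferich
primes for the base `α`; the triples are `1 + (α ^ n - 1) = α ^ n`). This is Silverman's theorem for `K = ℚ`,
and due to Graves and Murty, Srinivas and Subramani for number fields. Without the conjecture nothing was known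
for any `α` before the work in this repository.

We prove, unconditionally, for EVERY number field `K`:

1. The bases `α` which are bad in the sense that the prime numbers below the non-Wieferich primes of the
   base `α` have density zero form a subgroup `B` of `Kˣ`, closed under roots, which contains no `α` such that
   a power of `|N(α)|` is a power `≠ 1` of `2`, `3` or `432`, and no `1 - ζ`, `ζ` in `K` a root of unity of
   prime power order at least `3`. So `B` is a group of infinite index, for every `α` at most one of the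
   numbers `α * 2 ^ j` is bad, and so on.
2. In each lattice `ℤ ω_1 + ⋯ + ℤ ω_r` in `K` (`ω_i` linearly independent) at least
   `(2 [X / 2] + 1) ^ r - 1` of the nonzero elements with coordinates at most `X` have at least
   `x / (102 log x)` non-Wieferich primes below `x`, for all large `x`: half of the multiples of
   every single `α`, and a proportion of about `2 ^ (- r)` in rank `r` (for example of all the integers of `K`).
3. If a finitely generated group of numbers in `Kˣ` contains an element of norm `± 2 ^ m`, `± 3 ^ m` or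
   `± 432 ^ m`, `m ≠ 0`, then the same holds for 100 percent of its elements; for example for 100 percent of
   the `S`-units of `K`, for every finite set `S` of primes which contains a prime above `2` or `3`. The same
   (with `78 μ` in place of the constants) for groups which contain `1 - ζ`, `ζ` in `K` a primitive root of unity
   of order `μ`, a prime power `≥ 3`; so for the units of norm a power of any prime in cyclotomic fields.
4. A statement for families of numbers in different fields.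

Proof. If all primes above `p` are Wieferich primes for the base `α`, then `p` is one for the norm of `α` (helper283,
`Run7/h283/NW`); if they are for `1 - ζ` then the same holds modulo `p ^ 2` in the cyclotomic field, and the theorem
of helper510 (`MP_4d5ce1_nt`, `CyclotomicNonWieferich`) applies. The number of the non-Wieferich primes to the bases `2` (helper257, helper361), `3` and
`432` (helper510) up to `x` is at least `x / (c log x)`. Hence of two numbers the quotient of which has norm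
`± 2 ^ m` at least one is good, at every scale `x`; and this gives the counts, by moving the numbers on the
lines `α * 2 ^ j` (in part 3: on the lines `α * β ^ j`).
-/

set_option autoImplicit false

namespace Pool.Agent.Results.MP_44a246_nt.ExceptionalBases

open NumberField IsDedekindDomain
open scoped WithZero

/-- `α` is a unit at the prime `v` of `K`, and `v` divides `α ^ (N v - 1) - 1` exactly once
(`valuation` is the multiplicative valuation, `exp (-1)` its value at a uniformizer). -/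
def NonWieferich (K : Type) [Field K] [NumberField K] (α : K) (v : HeightOneSpectrum (𝓞 K)) : Prop :=
  v.valuation K α = 1 ∧ v.valuation K (α ^ (Ideal.absNorm v.asIdeal - 1) - 1) = WithZero.exp (-1 : ℤ)

/-- `α` is a unit at `v`, and `v` is a primitive prime divisor of `α ^ n - 1` which divides it exactly once. -/
def ExactPrimitive (K : Type) [Field K] [NumberField K] (α : K) (n : ℕ) (v : HeightOneSpectrum (𝓞 K)) : Prop :=
  v.valuation K α = 1 ∧ v.valuation K (α ^ n - 1) = WithZero.exp (-1 : ℤ) ∧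
    ∀ m : ℕ, 1 ≤ m → m < n → v.valuation K (α ^ m - 1) = 1

/-- The number of the prime numbers `p ≤ x` such that some prime of `K` above `p` is not a Wieferich prime
for the base `α`. -/
noncomputable def count (K : Type) [Field K] [NumberField K] (α : K) (x : ℕ) : ℕ :=
  {p : ℕ | p ≤ x ∧ p.Prime ∧ ∃ v : HeightOneSpectrum (𝓞 K), (p : 𝓞 K) ∈ v.asIdeal ∧ NonWieferich K α v}.ncard

/-- **Non-Wieferich primes for almost all bases in number fields.** -/
theorem result :
    -- families
    (∀ (ι : Type) [Fintype ι] (K : ι → Type) [∀ i, Field (K i)] [∀ i, NumberField (K i)] (α : ∀ i, K i)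
      (c : ι → ℤ) (b : ℕ) (C : ℝ) (m : ℤ), ((b = 2 ∧ C = 51) ∨ ((b = 3 ∨ b = 432) ∧ C = 111)) →
      (∀ i, α i ≠ 0) → m ≠ 0 → |∏ i, (Algebra.norm ℚ (α i)) ^ (c i)| = (b : ℚ) ^ m →
      ∃ x₀ : ℕ, ∀ x : ℕ, x₀ ≤ x → (x : ℝ) / (C * Real.log x) ≤
        ({p : ℕ | p ≤ x ∧ p.Prime ∧ ∃ i, ∃ v : HeightOneSpectrum (𝓞 (K i)),
          (p : 𝓞 (K i)) ∈ v.asIdeal ∧ NonWieferich (K i) (α i) v}.ncard : ℝ)) ∧
    ∀ (K : Type) [Field K] [NumberField K],
      -- the group of the exceptional bases
      (∃ B : Subgroup Kˣ,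
        (∀ u : Kˣ, u ∈ B ↔ ∀ ε : ℝ, 0 < ε → ∃ x₀ : ℕ, ∀ x : ℕ, x₀ ≤ x →
          (count K (u : K) x : ℝ) ≤ ε * (x / Real.log x)) ∧
        (∀ (u : Kˣ) (k : ℕ), 0 < k → u ^ k ∈ B → u ∈ B) ∧
        (∀ u ∈ B, ∀ (b : ℕ) (k m : ℤ), (b = 2 ∨ b = 3 ∨ b = 432) → m ≠ 0 →
          |Algebra.norm ℚ (u : K)| ^ k ≠ (b : ℚ) ^ m) ∧
        (∀ u ∈ B, ∀ (μ : ℕ) (ζ : K), IsPrimePow μ → 3 ≤ μ → IsPrimitiveRoot ζ μ → (u : K) ≠ 1 - ζ) ∧
        ∀ u : Kˣ, u ∉ B →
          {n : ℕ | ∃ v : HeightOneSpectrum (𝓞 K), ExactPrimitive K (u : K) n v}.Infinite) ∧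
      -- lattices
      (∀ (ι : Type) [Fintype ι] (ω : ι → K), LinearIndependent ℤ ω → ∀ X : ℕ,
        ∃ x₀ : ℕ, ∀ x : ℕ, x₀ ≤ x → (2 * (X / 2) + 1) ^ Fintype.card ι - 1 ≤
          {c : ι → ℤ | (c ≠ 0 ∧ ∀ i, |c i| ≤ (X : ℤ)) ∧
            (x : ℝ) / (102 * Real.log x) ≤ count K (∑ i, (c i : K) * ω i) x}.ncard) ∧
      -- finitely generated groups
      (∀ (ι : Type) [Fintype ι] (g : ι → K) (w : ι → ℤ) (b : ℕ) (C : ℝ) (m : ℤ),
        ((b = 2 ∧ C = 51) ∨ ((b = 3 ∨ b = 432) ∧ C = 111)) → (∀ i, g i ≠ 0) → m ≠ 0 →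
        |∏ i, (Algebra.norm ℚ (g i)) ^ (w i)| = (b : ℚ) ^ m → ∀ N : ℕ,
        ∃ x₀ : ℕ, ∀ x : ℕ, x₀ ≤ x → ∏ i, (2 * N + 1 - (w i).natAbs) ≤
          {n : ι → ℤ | (∀ i, |n i| ≤ (N : ℤ)) ∧
            (x : ℝ) / (2 * C * Real.log x) ≤ count K (∏ i, g i ^ n i) x}.ncard) ∧
      -- the numbers `1 - ζ`, and the groups which contain them
      (∀ (μ : ℕ) (ζ : K), IsPrimePow μ → 3 ≤ μ → IsPrimitiveRoot ζ μ →
        (∃ x₀ : ℕ, ∀ x : ℕ, x₀ ≤ x → (x : ℝ) / (38 * μ * Real.log x) ≤ count K (1 - ζ) x) ∧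
        ∀ (ι : Type) [Fintype ι] (g : ι → K) (w : ι → ℤ), (∀ i, g i ≠ 0) → ∏ i, g i ^ w i = 1 - ζ →
          ∀ N : ℕ, ∃ x₀ : ℕ, ∀ x : ℕ, x₀ ≤ x → ∏ i, (2 * N + 1 - (w i).natAbs) ≤
            {n : ι → ℤ | (∀ i, |n i| ≤ (N : ℤ)) ∧
              (x : ℝ) / (78 * μ * Real.log x) ≤ count K (∏ i, g i ^ n i) x}.ncard) := by
  refine ⟨?_, ?_⟩
  · intro ι _ K _ _ α c b C m hb hα hm h
    obtain ⟨hb2, C₀, hC₀, hlt, hd⟩ := Run7.h283.EB.dens_all hb
    exact Run7.h283.NW.dens_of K α hα c hm hb2 h hC₀ hlt hd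
  · intro K _ _
    refine ⟨⟨Run7.h283.EB.Exc K, fun u => Iff.rfl, fun u k hk h => Run7.h283.EB.Exc_root u hk h, ?_,
      fun u hu μ ζ hpp hμ hζ h => Run7.h283.EB.Exc_cyc hpp hμ hζ u h hu,
      fun u hu => Run7.h283.EB.Exc_inf u hu⟩, ?_, ?_, ?_⟩
    · intro u hu b k m hb hm h
      have hb' : ∃ C : ℝ, (b = 2 ∧ C = 51) ∨ ((b = 3 ∨ b = 432) ∧ C = 111) := by
        rcases hb with h | h | h
        · exact ⟨51, Or.inl ⟨h, rfl⟩⟩
        · exact ⟨111, Or.inr ⟨Or.inl h, rfl⟩⟩
        · exact ⟨111, Or.inr ⟨Or.inr h, rfl⟩⟩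
      obtain ⟨C, hC⟩ := hb'
      obtain ⟨hb2, C₀, hC₀, -, hd⟩ := Run7.h283.EB.dens_all hC
      exact Run7.h283.EB.Exc_norm hb2 hC₀ hd u k m hm h hu
    · intro ι _ ω hω X
      obtain ⟨x₀, h1⟩ := Run7.h283.EB.box (K := K) (b := 2) le_rfl (by norm_num : (0 : ℝ) < 50)
        (by norm_num : (50 : ℝ) < 51) Run7.h361.density ω hω X
      refine ⟨x₀, fun x hx => ?_⟩
      have h2 := h1 x hx
      norm_num at h2 ⊢
      exact h2
    · intro ι _ g w b C m hb hg hm h N
      obtain ⟨hb2, C₀, hC₀, hlt, hd⟩ := Run7.h283.EB.dens_all hb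
      exact Run7.h283.EB.group hb2 hC₀ hlt hd g hg w hm h N
    · intro μ ζ hpp hμ hζ
      refine ⟨Run7.h283.EB.cyc_count hpp hμ hζ, fun ι _ g w hg h N => ?_⟩
      obtain ⟨x₀, h1⟩ := Run7.h283.EB.group_cyc hpp hμ hζ g hg w h N
      refine ⟨x₀, fun x hx => ?_⟩
      have h2 := h1 x hx
      have e : (2 * (39 * (μ : ℝ)) * Real.log x) = 78 * μ * Real.log x := by ring
      rw [e] at h2
      exact h2

end Pool.Agent.Results.MP_44a246_nt.ExceptionalBases
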