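import Pool.Agent.Run7.h197.D.Final

/-!
# MP_44a246_nt: truncation and multiplicities modulo `n`, points near moving targets

Let `K` be a number field, `S` a finite set of places, `D` an effective divisor on the projective
line over `K` (the divisor of poles of `F/G`; every effective divisor is of this form). For `t ∈ K`
off `D` let `i_v(D, t)` be the intersection multiplicity at `v`, so that
`N_S^(1)(D, t) = ∑ log Nv`, over the `v ∉ S` with `i_v(D, t) > 0`. For `n ≥ 1` let `|e|_n` be the
distance from `e` to the nearest multiple of `n`.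

**Theorem.** Let `M`, `s` and `δ` be natural numbers. There is `κ` such that for all `n`, all points
`t ∈ K`, all extensions `L` of `K` of degree at most `δ`, all (moving) targets `a ∈ L ∪ {∞}` and all
embeddings `ψ` of `L` in `ℂ` with
`|ψ(t) - ψ(a)| ≤ H(t)^(-1/M)` (`|ψ(t)| ≥ H(t)^(1/M)` for `a = ∞`), such that `D` has two geometric points
other than `ψ(a)`, and for all sets `T` of at most `s` places
`min(n, log H(t)) ≤ (2 + log H(a) + ∑_{v ∈ T} log Nv + ∑_{v ∉ S ∪ T} |i_v(D, t)|_n log Nv) ^ κ`.

So the places of `T` are truncated to multiplicity one, and at the other places only the part of the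
intersection multiplicity which is not divisible by `n` is counted. For `n ≥ log H(t)` the left side
is `log H(t)` and `|i|_n ≤ i`; if moreover `T` is the set of all places outside `S` where `t` meets
`D` and has at most `s` elements this gives `log H(t) ≤ (2 + log H(a) + N_S^(1)(D, t)) ^ κ` (up to the
normalisation), where Vojta's conjecture gives `(deg D - 2 - ε) h(t) ≤ N_S^(1)(D, t) + O(1)`. If
`D` meets `t` outside `S` in an `n`-fold divisor, up to `s` places and up to a divisor of norm `m`,
then `n` or `log H(t)` is bounded by a power of the logarithms of `m`, of the norms of these places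
and of `H(a)`. The target `a` may be any algebraic number of degree at most `δ` over `K` (take
`L = K(a)`) with `log H(a) ≤ (log H(t))^(1/κ) / 2`; the exponent `κ` does not depend on the field `L`.

Proof. Let `β, β'` be two points of `D` other than `a`. For `v` outside a finite set the positive
orders of `t - β` and `t - β'` are (up to bounded factors) the multiplicities `i_v(D, t)`, so
`x = (t - β)/(t - β')` is, up to a power with bounded exponent, a product of an `n`-th power and of
powers (with exponents below `n`) of a bounded number of algebraic numbers whose heights are bounded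
by the quantity in the parenthesis. As `t` is close to `a`, `x` is close to `(a - β)/(a - β')`, a number
of height `≤ C H(a)^C`. Now the lower bounds for linear forms in logarithms which are sharp in one
height (`Run7.h197.BK`), uniform in all number fields of bounded degree (`Run7.h197.U`), apply in the
compositum of `L` and the field of `β`, `β'` (`Run7.h197.D`).
-/

set_option autoImplicit false

open NumberField Height IsDedekindDomain

namespace Pool.Agent.Results.MP_44a246_nt.MovingTargetsModuloN

section
variable {K : Type} [Field K] [NumberField K]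

/-- The exponent of the prime ideal `v` in `x ≠ 0`. -/
noncomputable def ord (v : HeightOneSpectrum (𝓞 K)) (x : K) : ℤ := -WithZero.log (v.valuation K x)

/-- The intersection multiplicity at `v` of `t` and the divisor `D` of poles of `F/G`: the order of
the pole of `F(t)/G(t)` at `v`. -/
noncomputable def mult (F G : Polynomial K) (t : K) (v : HeightOneSpectrum (𝓞 K)) : ℕ :=
  (-ord v (F.eval t / G.eval t)).toNat

/-- The distance from `e` to the nearest multiple of `n`. -/
noncomputable def distance (n e : ℕ) : ℕ := sInf {k : ℕ | ∃ r : ℤ, (k : ℤ) = |r| ∧ (n : ℤ) ∣ (e : ℤ) + r}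

/-- The counting function outside `S` and `T` of the multiplicities modulo `n`. -/
noncomputable def counting (F G : Polynomial K) (S : Set (HeightOneSpectrum (𝓞 K)))
    (T : Finset (HeightOneSpectrum (𝓞 K))) (n : ℕ) (t : K) : ℝ :=
  ∑ᶠ v ∈ {v : HeightOneSpectrum (𝓞 K) | v ∉ S ∧ v ∉ T},
    (distance n (mult F G t v) : ℝ) * Real.log (Ideal.absNorm v.asIdeal)

/-- The point of the complex projective line (`none` is the point at infinity) lies on the divisor
of poles of `F/G`. -/
def OnDivisor (F G : Polynomial K) (φ : K →+* ℂ) : Option ℂ → Prop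
  | none => G.natDegree < F.natDegree
  | some b => (G.map φ).eval b = 0

/-- The divisor has two points different from `a`. -/
def TwoOther (F G : Polynomial K) (φ : K →+* ℂ) (a : Option ℂ) : Prop :=
  ∃ b c : Option ℂ, b ≠ c ∧ b ≠ a ∧ c ≠ a ∧ OnDivisor F G φ b ∧ OnDivisor F G φ c

/-- `|ψ(t) - ψ(a)| ≤ H(t)^(-1/M)`, or `|ψ(t)| ≥ H(t)^(1/M)` for the point `a` at infinity; here
`H(t)` is the product over all places of `K` of `max(1, |t|_v)`. -/
def Near {L : Type} [Field L] [NumberField L] [Algebra K L] (ψ : L →+* ℂ) (M : ℕ) (t : K) :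
    Option L → Prop
  | none => mulHeight₁ t ≤ ‖ψ (algebraMap K L t)‖ ^ M
  | some a => mulHeight₁ t * ‖ψ (algebraMap K L t) - ψ a‖ ^ M ≤ 1

/-- The height of a point of the projective line. -/
noncomputable def height : Option K → ℝ
  | none => 1
  | some a => mulHeight₁ a

end

/-- **The truncated inequality modulo `n` near moving targets.** -/
theorem result (K : Type) [Field K] [NumberField K] (F G : Polynomial K) (hcop : IsCoprime F G)
    (hG : G ≠ 0) (S : Set (HeightOneSpectrum (𝓞 K))) (hS : S.Finite) (M s δ : ℕ) :
    ∃ κ : ℕ, ∀ (n : ℕ) (t : K) (L : Type) [Field L] [NumberField L] [Algebra K L],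
      Module.finrank K L ≤ δ → ∀ (a : Option L) (ψ : L →+* ℂ)
      (T : Finset (HeightOneSpectrum (𝓞 K))), T.card ≤ s → G.eval t ≠ 0 →
      TwoOther F G (ψ.comp (algebraMap K L)) (a.map ψ) → Near ψ M t a →
      min (n : ℝ) (Real.log (mulHeight₁ t)) ≤
        (2 + Real.log (height a) + ∑ v ∈ T, Real.log (Ideal.absNorm v.asIdeal) +
          counting F G S T n t) ^ κ := by
  obtain ⟨κ, hκ⟩ := Run7.h197.D.placesU F G hcop hG S hS M 1 s le_rfl δ
  refine ⟨κ, ?_⟩
  intro n t L _ _ _ hLδ a ψ T hT hGt htwo hnear
  have h1 : Run7.h197.N.TwoPoles F G (ψ.comp (algebraMap K L)) (a.map ψ) := by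
    obtain ⟨b, c, hbc, hb, hc, pb, pc⟩ := htwo
    refine ⟨b, c, hbc, hb, hc, ?_, ?_⟩
    · rcases b with _ | b <;> exact pb
    · rcases c with _ | c <;> exact pc
  have h2 : Run7.h197.V.NearL ψ M t a := by
    rcases a with _ | a <;> exact hnear
  have h3 : Run7.h197.V.hp a = height a := by
    rcases a with _ | a <;> rfl
  have h4 : Run7.h197.V.cnt S T n 1 (F.eval t / G.eval t) = counting F G S T n t := by
    have key : ∀ v : HeightOneSpectrum (𝓞 K), ord v (F.eval t / G.eval t) < 0 →
        Run7.h197.V.dist n (((1 : ℕ) : ℤ) * ord v (F.eval t / G.eval t)) =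
          distance n (mult F G t v) := by
      intro v hv
      unfold Run7.h197.V.dist distance mult
      congr 1
      ext k
      rw [Nat.cast_one, one_mul, Int.toNat_of_nonneg (by omega)]
      constructor
      · rintro ⟨r, hr, hd⟩
        refine ⟨-r, by rwa [abs_neg], ?_⟩
        rw [← dvd_neg]
        have : -(-ord v (F.eval t / G.eval t) + -r) = ord v (F.eval t / G.eval t) + r := by ring
        rwa [this]
      · rintro ⟨r, hr, hd⟩
        refine ⟨-r, by rwa [abs_neg], ?_⟩
        rw [← dvd_neg]
        have : -(ord v (F.eval t / G.eval t) + -r) = -ord v (F.eval t / G.eval t) + r := by ring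
        rwa [this]
    unfold Run7.h197.V.cnt counting
    have e1 : ∑ᶠ v ∈ {v : HeightOneSpectrum (𝓞 K) | v ∉ S ∧ v ∉ T ∧
        ord v (F.eval t / G.eval t) < 0},
        (Run7.h197.V.dist n (((1 : ℕ) : ℤ) * ord v (F.eval t / G.eval t)) : ℝ) *
          Real.log (Ideal.absNorm v.asIdeal) =
        ∑ᶠ v ∈ {v : HeightOneSpectrum (𝓞 K) | v ∉ S ∧ v ∉ T ∧
        ord v (F.eval t / G.eval t) < 0},
        (distance n (mult F G t v) : ℝ) * Real.log (Ideal.absNorm v.asIdeal) :=
      finsum_mem_congr rfl fun v hv => by rw [key v hv.2.2]
    refine Eq.trans e1 (finsum_mem_inter_support_eq _ _ _ ?_)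
    ext v
    simp only [Set.mem_inter_iff, Set.mem_ofPred_eq, Function.mem_support]
    constructor
    · rintro ⟨⟨a1, a2, -⟩, a3⟩
      exact ⟨⟨a1, a2⟩, a3⟩
    · rintro ⟨⟨a1, a2⟩, a3⟩
      refine ⟨⟨a1, a2, ?_⟩, a3⟩
      by_contra hcon
      apply a3
      have h5 : mult F G t v = 0 := by
        unfold mult
        omega
      have h6 : distance n 0 = 0 :=
        le_antisymm (Nat.sInf_le ⟨0, by simp, by simp⟩) (Nat.zero_le _)
      rw [h5, h6, Nat.cast_zero, zero_mul]
  have h5 := hκ n t L hLδ a ψ T hT h1 h2 hGt
  rwa [h3, h4] at h5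

end Pool.Agent.Results.MP_44a246_nt.MovingTargetsModuloN
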