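import Mathlib
import Pool.Agent.Run7.h720.WRes

set_option autoImplicit false

/-!
# Vojta's inequality with the truncated counting function at the sparse rational points of the members
of all families of smooth projective pairs over number fields

Vojta's conjecture: `h_{K_X + D}(P) ≤ N_S^(1)(D, P) + ε h_A(P) + d_{K(P)/K} + O(1)` for the points `P` of
degree at most `r` over `K` outside a proper closed subset. Here `K` is a number field and `r = 1`: the
`K`-rational points, for which `d_{K(P)/K} = 0`. The theorem is the one of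
`MP_9ec3f0_nt.SparsePointsMovingPairs` (helper720) with the truncated counting function of this page.

`K` is a number field, `(X_c)` a family of smooth projective varieties of dimension `n` in
`ℙ^(n + s)`, parametrised by the points `c = (c_1, …, c_p)` of the affine variety given by the
equations `E i (c) = 0` and `N i (c) ≠ 0`: `X_c` has the equations `(G k)_c = 0`, forms whose
coefficients are polynomials in `c`. There are families of divisors with strict normal crossings on
the `X_c`: `D = D_1 + ⋯ + D_q`, `D_i` with the equations `(F i j)_c = 0`, `j < w`, forms of degree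
`d i`, and for each place `v` in a finite set `T` of places `D_v = D_{v, 1} + ⋯ + D_{v, q}` with the
equations `(F' v i j)_c = 0`, forms of degree `d' v i`. In Vojta's conjecture `D_v = D`.
-/

namespace Pool.Agent.Results.MP_44a246_nt.SparsePointsMovingPairs

open MvPolynomial NumberField IsDedekindDomain Height
open Pool.Agent.K1H83.VN

section field
variable {K : Type} [Field K]

/-! ### Families -/

variable (K) in
/-- A family of polynomials in `m` variables (coordinates), the coefficients of which are polynomials
in the `p` parameters. -/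
abbrev Family (p m : ℕ) : Type := MvPolynomial (Fin m) (MvPolynomial (Fin p) K)

/-- The member `H_c` of the family `H` with the parameters `c` (in an extension field of `K`). -/
noncomputable def member {L : Type} [Field L] [Algebra K L] {p m : ℕ} (c : Fin p → L)
    (H : Family K p m) : MvPolynomial (Fin m) L :=
  map (aeval c : MvPolynomial (Fin p) K →ₐ[K] L).toRingHom H

/-- `c` is a point of the base: the `E i` vanish at `c` and the `N i` do not. -/
def InBase {L : Type} [Field L] [Algebra K L] {p a b : ℕ} (E : Fin a → MvPolynomial (Fin p) K)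
    (N : Fin b → MvPolynomial (Fin p) K) (c : Fin p → L) : Prop :=
  (∀ i, aeval c (E i) = 0) ∧ ∀ i, aeval c (N i) ≠ 0

/-- All members of the family are smooth of codimension `s` and the divisors on them have strict
normal crossings: over every extension field, at every point `z` of every member `X_c`, for suitable
`s` equations of `X_c` and one equation of each component of `D_c` through `z`, all gradients at `z`
are linearly independent. -/
def SmoothFamily {p m g q w a b : ℕ} (s : ℕ) (E : Fin a → MvPolynomial (Fin p) K)
    (N : Fin b → MvPolynomial (Fin p) K) (G : Fin g → Family K p m)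
    (F : Fin q → Fin w → Family K p m) : Prop :=
  ∀ (L : Type) [Field L] [Algebra K L] (c : Fin p → L) (z : Fin m → L), InBase E N c → z ≠ 0 →
    (∀ k, aeval z (member c (G k)) = 0) →
    ∃ (i : Fin s → Fin g) (j : Fin q → Fin w), LinearIndependent L
      (Sum.elim (fun k => fun y => aeval z (pderiv y (member c (G (i k)))))
        (fun k : {k : Fin q // ∀ j, aeval z (member c (F k j)) = 0} =>
          fun y => aeval z (pderiv y (member c (F k.1 (j k.1))))))

/-- The exceptional set in `X_c` given by a finite list `P` of families of forms in `n + 1` variables: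
`x` belongs to it if for every choice `J` of `n + 1` coordinates one of those forms `(P i)_c` that are
not zero vanishes at the coordinates `x_J`. It is closed, and it contains no component of `X_c`: on
the cone over a variety of dimension `n`, some `n + 1` coordinates are algebraically independent. -/
def Exceptional {p m n l : ℕ} (P : Fin l → Family K p (n + 1)) (c : Fin p → K) (x : Fin m → K) :
    Prop :=
  ∀ J : Fin (n + 1) → Fin m, ∃ i, member c (P i) ≠ 0 ∧
    aeval (fun k => x (J k)) (member c (P i)) = 0

/-- The columns of `A` are a basis of the tangent space at `x` of the affine cone over the variety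
with the equations `G k = 0` (the vectors orthogonal to all gradients of equations), the variety being
smooth of dimension `n` at `x`. -/
def IsTangentBasis {m n g : ℕ} (G : Fin g → MvPolynomial (Fin m) K) (x : Fin m → K)
    (A : Matrix (Fin m) (Fin (n + 1)) K) : Prop :=
  LinearIndependent K (fun (c : Fin (n + 1)) (j : Fin m) => A j c) ∧
    ∀ k c, ∑ j, aeval x (pderiv j (G k)) * A j c = 0

/-- The local height `λ_{Z,v}(x)` at the absolute value `v` of the subvariety `Z` with the equations
`F j = 0`, forms of degree `d`. -/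
noncomputable def localHeight {m w : ℕ} (F : Fin w → MvPolynomial (Fin m) K) (d : ℕ)
    (x : Fin m → K) (v : AbsoluteValue K ℝ) : ℝ :=
  Real.log ((⨆ i, v (x i)) ^ d / ⨆ j, v (aeval x (F j)))

variable [NumberField K]

/-! ### Places and heights, relative to `K` -/

variable (K) in
/-- The places of `K`, infinite and finite. -/
abbrev Place : Type := InfinitePlace K ⊕ HeightOneSpectrum (𝓞 K)

/-- The absolute value of a place. (Mathlib's absolute value of a finite place is normalised so that
the product formula holds without exponents.) -/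
noncomputable def absVal : Place K → AbsoluteValue K ℝ
  | Sum.inl v => v.1
  | Sum.inr v => (FinitePlace.mk v).1

/-- The multiplicity of a place: `2` for a complex place, `1` for all others. -/
noncomputable def mult : Place K → ℕ
  | Sum.inl v => v.mult
  | Sum.inr _ => 1

/-- The height `h_D(x)`, computed with `D_v` in the place of `D` at the places `v` in `T`: the sum of the
local heights `λ_{D_v,v}(x)` over the places `v` in `T` and `λ_{D,v}(x)` over the primes `v` outside
`T`. If `D_v = D` for all `v` in `T` it is the height of `x` with respect to `D`. -/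
noncomputable def divisorHeight {m q w : ℕ} (T : Finset (Place K))
    (F' : Place K → Fin q → Fin w → MvPolynomial (Fin m) K) (d' : Place K → Fin q → ℕ)
    (F : Fin q → Fin w → MvPolynomial (Fin m) K) (d : Fin q → ℕ) (x : Fin m → K) : ℝ :=
  ∑ v ∈ T, mult v * ∑ i, localHeight (F' v i) (d' v i) x (absVal v) +
    ∑ᶠ (v : HeightOneSpectrum (𝓞 K)) (_ : Sum.inr v ∉ T), ∑ i,
      localHeight (F i) (d i) x (FinitePlace.mk v).1

/-- The local height `λ_{D,v}(x)` at the prime `v`. -/
noncomputable def lam {m q w : ℕ} (F : Fin q → Fin w → MvPolynomial (Fin m) K)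
    (d : Fin q → ℕ) (v : HeightOneSpectrum (𝓞 K)) (x : Fin m → K) : ℝ :=
  ∑ i, localHeight (F i) (d i) x (FinitePlace.mk v).1

/-- The truncated counting function `N_T^(1)(D, x)` of a `K`-rational point: the sum of `log N(v)` over
the primes `v` outside `T` at which `λ_{D,v}(x)` is positive, each counted once. -/
noncomputable def truncated {m q w : ℕ} (T : Finset (Place K))
    (F : Fin q → Fin w → MvPolynomial (Fin m) K) (d : Fin q → ℕ) (x : Fin m → K) : ℝ :=
  ∑ᶠ (v : HeightOneSpectrum (𝓞 K)) (_ : Sum.inr v ∉ T ∧ 0 < lam F d v x),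
    Real.log (Ideal.absNorm v.asIdeal : ℝ)

/-- The order of the zero of `z` at a prime times the logarithm of the norm of the prime. -/
noncomputable def ord (v : HeightOneSpectrum (𝓞 K)) (z : K) : ℝ := -Real.log (FinitePlace.mk v z)

/-- The counting function of the zeros of `z` outside `T`. -/
noncomputable def counting (T : Finset (Place K)) (z : K) : ℝ :=
  ∑ᶠ (v : HeightOneSpectrum (𝓞 K)) (_ : Sum.inr v ∉ T), ord v z

/-- The height `h_K(x)` for the canonical class `K` of `X`. The Gauss map `γ` sends a point of `X` to
its embedded tangent space, `γ^* O(1) = K + (n + 1) H` for the hyperplane class `H`, and `h_K(x)` is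
the height of `γ(x)` (whose Plücker coordinates are the maximal minors of `A`) minus
`(n + 1) h(x)`. -/
noncomputable def canonicalHeight {m n : ℕ} (x : Fin m → K) (A : Matrix (Fin m) (Fin (n + 1)) K) :
    ℝ :=
  logHeight (fun J : Fin (n + 1) → Fin m => (A.submatrix J id).det) - (n + 1) * logHeight x

/-- `z` is a sum of `r` terms `c * γ` with `γ` in `Γ` and `c` of (multiplicative, relative) height at
most `R`. -/
def IsShort (Γ : Subgroup Kˣ) (r : ℕ) (R : ℝ) (z : K) : Prop :=
  ∃ (c : Fin r → K) (γ : Fin r → Kˣ), (∀ j, γ j ∈ Γ) ∧ (∀ j, mulHeight₁ (c j) ≤ R) ∧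
    z = ∑ j, c j * (γ j : K)

/-- The vector `x` is a sum of `r` terms `γ • c` with `γ` in `Γ` and `c` a vector with entries of
(multiplicative, relative) height at most `R`. -/
def IsShortPoint {m : ℕ} (Γ : Subgroup Kˣ) (r : ℕ) (R : ℝ) (x : Fin m → K) : Prop :=
  ∃ (c : Fin r → Fin m → K) (γ : Fin r → Kˣ), (∀ j, γ j ∈ Γ) ∧ (∀ j i, mulHeight₁ (c j i) ≤ R) ∧
    ∀ i, x i = ∑ j, c j i * (γ j : K)

/-! ### Auxiliary lemmas -/

theorem lam_support {m q w : ℕ} (F : Fin q → Fin w → MvPolynomial (Fin m) K)
    (d : Fin q → ℕ) (x : Fin m → K) (hx : x ≠ 0) (hF : ∀ i, ∃ j, aeval x (F i j) ≠ 0) :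
    {v : HeightOneSpectrum (𝓞 K) | lam F d v x ≠ 0}.Finite := by
  have hfin : (⋃ i, {v : HeightOneSpectrum (𝓞 K) |
      nm (Pool.Agent.W180.OP.fv v) (fun j => aeval x (F i j)) ≠ 1}).Finite :=
    Set.finite_iUnion fun i => nm_support _ (by
      obtain ⟨j, hj⟩ := hF i
      exact ne_of_coord hj)
  refine ((nm_support x hx).union hfin).subset fun v hv => ?_
  by_contra hcon
  rw [Set.mem_union, not_or, Set.mem_iUnion] at hcon
  obtain ⟨h1, h2⟩ := hcon
  push Not at h2
  apply hv
  unfold lam
  refine Finset.sum_eq_zero fun i _ => ?_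
  have e1 : nm (Pool.Agent.W180.OP.fv v) x = 1 := not_not.1 h1
  have e2 : nm (Pool.Agent.W180.OP.fv v) (fun j => aeval x (F i j)) = 1 := not_not.1 (h2 i)
  show Real.log (nm (Pool.Agent.W180.OP.fv v) x ^ d i /
    nm (Pool.Agent.W180.OP.fv v) fun j => aeval x (F i j)) = 0
  rw [e1, e2, one_pow, div_one, Real.log_one]

theorem local_eq {m q w : ℕ} (v : Place K) (F : Fin q → Fin w → MvPolynomial (Fin m) K)
    (d : Fin q → ℕ) (x : Fin m → K) (hx : x ≠ 0) (hF : ∀ i, ∃ j, aeval x (F i j) ≠ 0) :
    ∑ i, localHeight (F i) (d i) x (absVal v) =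
      Pool.Agent.Run7.h720.lc v x (fun i j => aeval x (F i j)) d := by
  have h1 : absVal v = Pool.Agent.W180.OP.av v := by
    rcases v with v | v
    · rfl
    · rfl
  rw [h1]
  unfold Pool.Agent.Run7.h720.lc
  refine Finset.sum_congr rfl fun i _ => ?_
  obtain ⟨j, hj⟩ := hF i
  show Real.log (nm (Pool.Agent.W180.OP.av v) x ^ d i /
    nm (Pool.Agent.W180.OP.av v) fun j => aeval x (F i j)) = _
  rw [Real.log_div (pow_pos (nm_pos _ hx) _).ne' (nm_pos _ (ne_of_coord (i := j) hj)).ne',
    Real.log_pow]

theorem divisorHeight_eq {m q w : ℕ} (T : Finset (Place K))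
    (F' : Place K → Fin q → Fin w → MvPolynomial (Fin m) K) (d' : Place K → Fin q → ℕ)
    (F : Fin q → Fin w → MvPolynomial (Fin m) K) (d : Fin q → ℕ) (x : Fin m → K) (hx : x ≠ 0)
    (hF' : ∀ v ∈ T, ∀ i, ∃ j, aeval x (F' v i j) ≠ 0) (hF : ∀ i, ∃ j, aeval x (F i j) ≠ 0) :
    divisorHeight T F' d' F d x = ∑ v ∈ T, Pool.Agent.W180.OP.wt v *
      Pool.Agent.Run7.h720.lc v x (fun i j => aeval x (F' v i j)) (d' v) +
      Pool.Agent.Run7.h720.out T x (fun i j => aeval x (F i j)) d := by
  classical
  unfold divisorHeight
  congr 1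
  · refine Finset.sum_congr rfl fun v hv => ?_
    rw [local_eq v (F' v) (d' v) x hx (hF' v hv)]
    congr 1
    rcases v with v | v
    · rfl
    · exact Nat.cast_one
  · unfold Pool.Agent.Run7.h720.out
    have h1 : ∀ i ∈ Finset.univ, (d i : ℝ) * ho T x - ho T (fun j => aeval x (F i j)) =
        ∑ᶠ v : HeightOneSpectrum (𝓞 K),
          ((d i : ℝ) * lo T x v - lo T (fun j => aeval x (F i j)) v) := by
      intro i _
      obtain ⟨j, hj⟩ := hF i
      have h2 := lo_support T x hx
      have h3 := lo_support T (fun j => aeval x (F i j)) (ne_of_coord (i := j) hj)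
      unfold ho
      rw [mul_finsum' _ _ h2, ← finsum_sub_distrib _ h3]
      refine h2.subset fun v hv h => hv ?_
      show (d i : ℝ) * lo T x v = 0
      rw [h, mul_zero]
    rw [Finset.sum_congr rfl h1, ← finsum_sum_comm]
    · refine finsum_congr fun v => ?_
      rw [finsum_eq_if]
      by_cases hv : Sum.inr v ∈ T
      · rw [if_neg (not_not.2 hv)]
        symm
        refine Finset.sum_eq_zero fun i _ => ?_
        unfold lo
        rw [if_pos hv, if_pos hv, mul_zero, sub_zero]
      · rw [if_pos hv]
        have h2 := local_eq (Sum.inr v : Place K) F d x hx hF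
        refine h2.trans ?_
        unfold Pool.Agent.Run7.h720.lc
        refine Finset.sum_congr rfl fun i _ => ?_
        unfold lo
        rw [if_neg hv, if_neg hv]
        rfl
    · intro i _
      obtain ⟨j, hj⟩ := hF i
      refine ((lo_support T x hx).union
        (lo_support T (fun j => aeval x (F i j)) (ne_of_coord (i := j) hj))).subset fun v hv => ?_
      by_contra hcon
      rw [Set.mem_union, not_or] at hcon
      apply hv
      have e1 : lo T x v = 0 := not_not.1 hcon.1
      have e2 : lo T (fun j => aeval x (F i j)) v = 0 := not_not.1 hcon.2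
      show (d i : ℝ) * lo T x v - lo T (fun j => aeval x (F i j)) v = 0
      rw [e1, e2, mul_zero, sub_zero]

end field

/-- **Main theorem.** Let `K` be a number field, `(X_c)` a family of smooth projective varieties of
dimension `n ≥ 1`, `T` a finite set of places of `K` containing the infinite ones, and let `(D_c)` and
for each `v` in `T` `(D_{v, c})` be families of divisors with strict normal crossings on the `X_c`.
Let `Γ` be a finitely generated subgroup of the multiplicative group of `K`, `r` and `M` natural
numbers, `B` and `ε > 0` real numbers. There are `δ > 0`, a finite list `P` of families of forms and a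
constant `C` such that the following holds for all parameters `c` in the base and all points `x` of
`X_c`, both over `K`, off the exceptional set given by `P` and off `D_c` and the `D_{v, c}`, and all
nonzero `ρ` and `τ` in `K`, integral outside `T`, such that the entries of `c` have height at most
`B H(x) ^ δ`, `x` and `ρ` are sums of `r` terms with coefficients of height at most `B H(x) ^ δ`, and
`λ_{D,v}(x) ≤ M ord_v(ρ) + ord_v(τ)` for all primes `v` outside `T`, where `h_D(x)` is computed with
`D_v` in the place of `D` at the places `v` in `T`: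
* `h_K(x) + h_D(x) ≤ N_T(ρ) + N_T(τ) + ε h(x) + C`;
* if `ord_v(ρ) ≤ log N(v)` and `λ_{D,v}(x) > 0` for all primes `v` outside `T` with `ord_v(ρ) > 0`
  (the zeros of `ρ` outside `T` are simple, and at each of them `x` meets `D`), then
  `h_K(x) + h_D(x) ≤ N_T^(1)(D, x) + N_T(τ) + ε h(x) + C`. -/
theorem result (K : Type) [Field K] [NumberField K] (n s g q w p a b : ℕ) (hn : 1 ≤ n)
    (E : Fin a → MvPolynomial (Fin p) K) (N : Fin b → MvPolynomial (Fin p) K)
    (G : Fin g → Family K p (n + s + 1)) (e : Fin g → ℕ) (hG : ∀ k, (G k).IsHomogeneous (e k))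
    (T : Finset (Place K)) (hT : ∀ v : InfinitePlace K, Sum.inl v ∈ T)
    (F : Fin q → Fin w → Family K p (n + s + 1)) (d : Fin q → ℕ)
    (hF : ∀ i j, (F i j).IsHomogeneous (d i)) (hsm : SmoothFamily s E N G F)
    (F' : Place K → Fin q → Fin w → Family K p (n + s + 1)) (d' : Place K → Fin q → ℕ)
    (hF' : ∀ v ∈ T, ∀ i j, (F' v i j).IsHomogeneous (d' v i))
    (hsm' : ∀ v ∈ T, SmoothFamily s E N G (F' v))
    (Γ : Subgroup Kˣ) (hΓ : Γ.FG) (r M : ℕ) (B ε : ℝ) (hε : 0 < ε) :
    ∃ (l : ℕ) (P : Fin l → Family K p (n + 1)) (k : Fin l → ℕ) (δ C : ℝ),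
      (∀ i, (P i).IsHomogeneous (k i)) ∧ 0 < δ ∧
      ∀ (c : Fin p → K) (x : Fin (n + s + 1) → K) (ρ τ : K), InBase E N c → x ≠ 0 →
        (∀ k, aeval x (member c (G k)) = 0) → ¬ Exceptional P c x →
        (∀ i, ∃ j, aeval x (member c (F i j)) ≠ 0) →
        (∀ v ∈ T, ∀ i, ∃ j, aeval x (member c (F' v i j)) ≠ 0) →
        (∀ j, mulHeight₁ (c j) ≤ B * mulHeight x ^ δ) → ρ ≠ 0 → τ ≠ 0 →
        (∀ v, Sum.inr v ∉ T → 0 ≤ ord v ρ) → (∀ v, Sum.inr v ∉ T → 0 ≤ ord v τ) →
        IsShortPoint Γ r (B * mulHeight x ^ δ) x → IsShort Γ r (B * mulHeight x ^ δ) ρ →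
        (∀ v, Sum.inr v ∉ T →
          lam (fun i j => member c (F i j)) d v x ≤ M * ord v ρ + ord v τ) →
        ∀ A : Matrix (Fin (n + s + 1)) (Fin (n + 1)) K,
          IsTangentBasis (fun k => member c (G k)) x A →
          canonicalHeight x A + divisorHeight T (fun v i j => member c (F' v i j)) d'
              (fun i j => member c (F i j)) d x ≤
            counting T ρ + counting T τ + ε * logHeight x + C ∧
          ((∀ v, Sum.inr v ∉ T → 0 < ord v ρ →
              0 < lam (fun i j => member c (F i j)) d v x ∧
                ord v ρ ≤ Real.log (Ideal.absNorm v.asIdeal : ℝ)) →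
            canonicalHeight x A + divisorHeight T (fun v i j => member c (F' v i j)) d'
                (fun i j => member c (F i j)) d x ≤
              truncated T (fun i j => member c (F i j)) d x + counting T τ +
                ε * logHeight x + C) := by
  classical
  obtain ⟨l, P, k, δ, C, hP, hδ, hmain⟩ := Pool.Agent.Run7.h720.var_mov K Γ hΓ T hT hn E N G F F'
    (Pool.Agent.Run7.h720.SmFam_of s E N G F fun L _ _ c z h1 h2 h3 h4 =>
      hsm L c z ⟨h1, h2⟩ h3 h4)
    (fun v hv => Pool.Agent.Run7.h720.SmFam_of s E N G (F' v) fun L _ _ c z h1 h2 h3 h4 =>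
      hsm' v hv L c z ⟨h1, h2⟩ h3 h4) (by omega) e hG d hF d' hF' r M B ε hε
  refine ⟨l, P, k, δ, C, hP, hδ, ?_⟩
  intro c x ρ τ hc hx0 hxG hex hxF hxF' hcB hρ0 hτ0 hρT hτT hsx hsρ hdiv A hA
  have hord : ∀ (v : HeightOneSpectrum (𝓞 K)) (z : K), z ≠ 0 → 0 ≤ ord v z →
      Pool.Agent.W180.OP.fv v z ≤ 1 := by
    intro v z hz hv
    have h1 : ord v z = -Real.log (Pool.Agent.W180.OP.fv v z) := rfl
    rw [h1] at hv
    by_contra hcon
    push Not at hcon
    have := Real.log_pos hcon
    linarith
  have key := hmain c x ρ τ A hx0 hc.1 hc.2 hcB hxG (by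
    unfold Exceptional at hex
    push Not at hex
    exact hex) hxF hxF' hρ0 hτ0 (fun v hv => hord v ρ hρ0 (hρT v hv))
    (fun v hv => hord v τ hτ0 (hτT v hv)) hsx hsρ (by
      intro v hv
      have h1 := hdiv v hv
      have h2 : (M : ℝ) * ord v ρ + ord v τ =
          -(M * Real.log (Pool.Agent.W180.OP.fv v ρ) +
            Real.log (Pool.Agent.W180.OP.fv v τ)) := by
        have e1 : ord v ρ = -Real.log (Pool.Agent.W180.OP.fv v ρ) := rfl
        have e2 : ord v τ = -Real.log (Pool.Agent.W180.OP.fv v τ) := rfl
        rw [e1, e2]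
        ring
      rw [h2] at h1
      have h3 := local_eq (Sum.inr v : Place K) (fun i j => member c (F i j)) d x hx0 hxF
      exact (le_of_eq h3.symm).trans h1) hA.1 hA.2
  have hfirst : canonicalHeight x A + divisorHeight T (fun v i j => member c (F' v i j)) d'
      (fun i j => member c (F i j)) d x ≤
      counting T ρ + counting T τ + ε * logHeight x + C := by
    rw [divisorHeight_eq T _ d' _ d x hx0 hxF' hxF]
    exact key
  refine ⟨hfirst, fun hle => hfirst.trans ?_⟩
  have h5 : counting T ρ ≤ truncated T (fun i j => member c (F i j)) d x := by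
    have hnorm : ∀ v : HeightOneSpectrum (𝓞 K),
        0 ≤ Real.log (Ideal.absNorm v.asIdeal : ℝ) := by
      intro v
      refine Real.log_nonneg ?_
      have h5 : Ideal.absNorm v.asIdeal ≠ 0 := fun h => v.ne_bot (Ideal.absNorm_eq_zero_iff.1 h)
      exact_mod_cast Nat.one_le_iff_ne_zero.2 h5
    refine finsum_le_finsum' ?_ ?_ fun v => ?_
    · refine (Pool.Agent.Run7.h720.log_fv_support ρ hρ0).subset fun v hv h => hv ?_
      have h2 : Real.log (Pool.Agent.W180.OP.fv v ρ) = 0 := h
      have h3 : ord v ρ = 0 := by
        show -Real.log (Pool.Agent.W180.OP.fv v ρ) = 0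
        rw [h2, neg_zero]
      show ∑ᶠ (_ : Sum.inr v ∉ T), ord v ρ = 0
      rw [h3]
      exact finsum_zero
    · refine (lam_support _ d x hx0 hxF).subset fun v hv h => hv ?_
      show ∑ᶠ (_ : Sum.inr v ∉ T ∧ 0 < lam (fun i j => member c (F i j)) d v x),
        Real.log (Ideal.absNorm v.asIdeal : ℝ) = 0
      rw [finsum_eq_if, if_neg]
      rintro ⟨-, h6⟩
      exact h6.ne' h
    · rw [finsum_eq_if, finsum_eq_if]
      by_cases hv : Sum.inr v ∈ T
      · rw [if_neg (not_not.2 hv), if_neg fun h => h.1 hv]
      · rw [if_pos hv]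
        by_cases h6 : 0 < ord v ρ
        · rw [if_pos ⟨hv, (hle v hv h6).1⟩]
          exact (hle v hv h6).2
        · split_ifs
          · exact (not_lt.1 h6).trans (hnorm v)
          · exact not_lt.1 h6
  linarith

end Pool.Agent.Results.MP_44a246_nt.SparsePointsMovingPairs
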