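import Mathlib
import Pool.Agent.Run7.h585.VL.Main

/-!
# MP_44a246_nt: large deviations of the truncated counting functions on the projective line

`K` is a number field of degree `d`, `D = [α_1] + … + [α_q]` is a reduced divisor of `K`-points of the
projective line, `T` a finite set of primes, `h` the absolute height. By the Vojta conjecture with
truncated counting function the `K`-points `P` with `N_T^{(1)}(D, P) ≤ (q - 2 - ε) h(P) + O(1)` are
finite in number. We study the points with small truncated counting functions of the single points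
`α_l`: let `N_l(P) = N_T^{(1)}(α_l, P) + O(1)` and let `g_l(P)`, the gain of `P` at `α_l`, be
`1 - N_l(P) / h(P)`, cut off at `0` and `1`. Let `κ₁ = 1` if `q = 3`, and `κ₁ = 6/7` for `q ≥ 2`.

1. (Large deviation law, with the second order term.) Let `E` be a closed set of vectors of `ℝ^q`, and
   `κ` in `E` with nonnegative coordinates, with the least total gain `s = ∑ κ_l` (`0 < s < κ₁`) of all
   elements of `E` in the unit cube, with the largest `∑ √κ_l` among the elements with the least total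
   gain; and suppose that `E` contains a cube `∏ [κ_l, κ_l + η]`. Then the number `V(B)` of the points
   `P` of height at most `log B` with `(g_1(P), …, g_q(P)) ∈ E` satisfies
   `log V(B) = d (2 - s) log B + (∑_l √(8 κ_l d) + o(1)) √(log B / log log B)`.
2. (Typical structure.) If `U` is an open set which contains all the elements of `E` in the unit cube
   with the least total gain and the largest `∑ √g_l`, then the gains of all but a proportion
   `exp (-δ √(log B / log log B))` of these points are in `U`.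
3. (Vojta's inequality.) Let `0 < t < κ₁`, `c` real, `ε > 0`. All the points `P` of height at most
   `log B` with `N(D, P) ≤ (q - t) h(P) + c`, `N = N_1 + … + N_q`, but a proportion
   `exp (-δ √(log B / log log B))`, have `|N_l(P) - (1 - t / q) h(P)| ≤ ε h(P)` for all `l`.

The proof combines upper bounds for the number of points with given lower bounds `κ_l` for the gains,
uniform in the `κ_l` (a uniform form of the method of `Pool/Agent/N575/QP_UPJ.lean`), the corresponding
lower bounds (`Pool/Agent/N401/QP_FINJ.lean`), and a covering argument. The cases of the sets `E`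
defined by `κ_l ≤ g_l` (for all `l`) and of the total gain (a sum) were proved in these files and in
`MP_4d5ce1_nt/ExceptionsSecondOrder`, without parts 2, 3.
-/

set_option autoImplicit false

namespace Pool.Agent.Results.MP_44a246_nt.VojtaLargeDeviations

open NumberField IsDedekindDomain Filter Topology

section

variable {K : Type} [Field K] [NumberField K] {q : ℕ}

/-- the absolute logarithmic height of a point (`Height.logHeight` is relative to `K`) -/
noncomputable def height (x : Projectivization K (Fin 2 → K)) : ℝ :=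
  Height.logHeight x.rep / (Module.finrank ℚ K : ℝ)

/-- the local height `λ_v(a, x)` for a prime `v`: `log (max |x_i|_v max |a_i|_v / |x_0 a_1 - x_1 a_0|_v)`,
with the absolute values of `K` normalised relative to `K`, divided by `[K : ℚ]` -/
noncomputable def localHeight (v : HeightOneSpectrum (𝓞 K)) (a : Fin 2 → K)
    (x : Projectivization K (Fin 2 → K)) : ℝ :=
  Real.log (max (FinitePlace.mk v (x.rep 0)) (FinitePlace.mk v (x.rep 1)) *
    max (FinitePlace.mk v (a 0)) (FinitePlace.mk v (a 1)) /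
      FinitePlace.mk v (x.rep 0 * a 1 - x.rep 1 * a 0)) / (Module.finrank ℚ K : ℝ)

/-- the truncated counting function `N_T^{(1)}(a, x)`: the sum over the primes `v` outside `T` of
`min (λ_v(a, x), log N(v) / [K : ℚ])` -/
noncomputable def counting (T : Set (HeightOneSpectrum (𝓞 K))) (a : Fin 2 → K)
    (x : Projectivization K (Fin 2 → K)) : ℝ :=
  ∑ᶠ (v : HeightOneSpectrum (𝓞 K)) (_ : v ∉ T),
    min (localHeight v a x) (Real.log (Ideal.absNorm v.asIdeal : ℝ) / (Module.finrank ℚ K : ℝ))

/-- `x` is none of the points `α_l` -/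
def Off (α : Fin q → Fin 2 → K) (x : Projectivization K (Fin 2 → K)) : Prop :=
  ∀ l, x.rep 0 * α l 1 - x.rep 1 * α l 0 ≠ 0

/-- `N_l(x) = N_T^{(1)}(α_l, x) + O(1)` for all `l`, with the constant `C` -/
def IsCounting (T : Set (HeightOneSpectrum (𝓞 K))) (α : Fin q → Fin 2 → K)
    (N : Fin q → Projectivization K (Fin 2 → K) → ℝ) (C : ℝ) : Prop :=
  ∀ x, Off α x → ∀ l, |N l x - counting T (α l) x| ≤ C

/-- the gains of `x`: the numbers `1 - N_l(x) / h(x)`, cut off at `0` and `1` -/
noncomputable def gain (N : Fin q → Projectivization K (Fin 2 → K) → ℝ)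
    (x : Projectivization K (Fin 2 → K)) (l : Fin q) : ℝ :=
  max 0 (min 1 (1 - N l x / height x))

/-- the points different from the `α_l`, of height at most `log B`, with gains in `E` -/
def Points (N : Fin q → Projectivization K (Fin 2 → K) → ℝ) (α : Fin q → Fin 2 → K)
    (E : Set (Fin q → ℝ)) (B : ℝ) : Set (Projectivization K (Fin 2 → K)) :=
  {x | Off α x ∧ Real.exp (height x) ≤ B ∧ gain N x ∈ E}

/-- the points different from the `α_l`, of height at most `log B`, with
`∑ N_l(x) ≤ (q - t) h(x) + c` -/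
def Small (N : Fin q → Projectivization K (Fin 2 → K) → ℝ) (α : Fin q → Fin 2 → K) (t c B : ℝ) :
    Set (Projectivization K (Fin 2 → K)) :=
  {x | Off α x ∧ Real.exp (height x) ≤ B ∧ ∑ l, N l x ≤ ((q : ℝ) - t) * height x + c}

/-- the elements of `Small` with `|N_l(x) - (1 - t / q) h(x)| > ε h(x)` for an `l` -/
def Atypical (N : Fin q → Projectivization K (Fin 2 → K) → ℝ) (α : Fin q → Fin 2 → K)
    (t c ε B : ℝ) : Set (Projectivization K (Fin 2 → K)) :=
  {x | x ∈ Small N α t c B ∧ ∃ l, ε * height x < |N l x - (1 - t / q) * height x|}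

end

/-- `g` is in the unit cube -/
def Cube {q : ℕ} (g : Fin q → ℝ) : Prop := (∀ l, 0 ≤ g l) ∧ ∀ l, g l ≤ 1

/-- `E` is closed, `κ` has nonnegative coordinates and a total `∑ κ_l` between `0` and `κ₁`, `E`
contains a small cube with the corner `κ`, all elements of `E` in the unit cube have at least the total
`∑ κ_l`, and those with the same total have at most the same sum of the square roots. -/
structure Admissible {q : ℕ} (E : Set (Fin q → ℝ)) (κ : Fin q → ℝ) (κ₁ : ℝ) : Prop where
  closed : IsClosed E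
  nonneg : ∀ l, 0 ≤ κ l
  pos : 0 < ∑ l, κ l
  lt : ∑ l, κ l < κ₁
  corner : ∃ η : ℝ, 0 < η ∧ ∀ g : Fin q → ℝ, (∀ l, κ l ≤ g l ∧ g l ≤ κ l + η) → g ∈ E
  least : ∀ g ∈ E, Cube g → ∑ l, κ l ≤ ∑ l, g l
  largest : ∀ g ∈ E, Cube g → ∑ l, g l = ∑ l, κ l → ∑ l, √(g l) ≤ ∑ l, √(κ l)

/-- **Theorem.** Let `K` be a number field of degree `d`, `q = 3` and `κ₁ = 1`, or `q ≥ 2` and
`κ₁ = 6/7`; let `T` be a finite set of primes, `α_1, …, α_q` different points of `ℙ¹(K)`, and `N_1`,
…, `N_q` functions with `N_l = N_T^{(1)}(α_l, ·) + O(1)`.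
(1) Let `E`, `κ` be admissible. The number `V(B)` of the points of height at most `log B` with gains
in `E` is finite, and `(log V(B) - d (2 - ∑ κ_l) log B) / √(log B / log log B)` tends to
`∑_l √(8 κ_l d)`. If `U` is open and contains all `g` in `E` in the unit cube with `∑ g_l = ∑ κ_l`,
`∑ √g_l = ∑ √κ_l`, then for a `δ > 0` and all large `B` at most
`exp (-δ √(log B / log log B)) V(B)` of these points have gains outside `U`.
(2) Let `0 < t < κ₁`, `c` real and `ε > 0`. For a `δ > 0` and all large `B` all the points of height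
at most `log B` with `∑ N_l(x) ≤ (q - t) h(x) + c`, except a proportion at most
`exp (-δ √(log B / log log B))`, satisfy `|N_l(x) - (1 - t / q) h(x)| ≤ ε h(x)` for all `l`. -/
theorem result : ∀ (K : Type) [Field K] [NumberField K] (q : ℕ) (κ₁ : ℝ),
    ((q = 3 ∧ κ₁ = 1) ∨ (2 ≤ q ∧ κ₁ = 6 / 7)) →
    ∀ (T : Set (HeightOneSpectrum (𝓞 K))) (α : Fin q → Fin 2 → K), T.Finite → (∀ l, α l ≠ 0) →
    (∀ l l', l ≠ l' → α l 0 * α l' 1 - α l 1 * α l' 0 ≠ 0) →
    ∀ (N : Fin q → Projectivization K (Fin 2 → K) → ℝ) (C : ℝ), IsCounting T α N C →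
    (∀ (E : Set (Fin q → ℝ)) (κ : Fin q → ℝ), Admissible E κ κ₁ →
      (∀ B : ℝ, (Points N α E B).Finite) ∧
      Tendsto (fun B : ℝ => (Real.log ((Points N α E B).ncard : ℝ) -
          Module.finrank ℚ K * (2 - ∑ l, κ l) * Real.log B) /
            √(Real.log B / Real.log (Real.log B))) atTop
        (𝓝 (∑ l, √(8 * κ l * Module.finrank ℚ K))) ∧
      ∀ U : Set (Fin q → ℝ), IsOpen U →
        (∀ g ∈ E, Cube g → ∑ l, g l = ∑ l, κ l → ∑ l, √(g l) = ∑ l, √(κ l) → g ∈ U) →
        ∃ δ : ℝ, 0 < δ ∧ ∀ᶠ B : ℝ in atTop, ((Points N α (E \ U) B).ncard : ℝ) ≤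
          Real.exp (-(δ * √(Real.log B / Real.log (Real.log B)))) *
            ((Points N α E B).ncard : ℝ)) ∧
    ∀ t c ε : ℝ, 0 < t → t < κ₁ → 0 < ε →
      (∀ B : ℝ, (Small N α t c B).Finite) ∧
      ∃ δ : ℝ, 0 < δ ∧ ∀ᶠ B : ℝ in atTop, ((Atypical N α t c ε B).ncard : ℝ) ≤
        Real.exp (-(δ * √(Real.log B / Real.log (Real.log B)))) *
          ((Small N α t c B).ncard : ℝ) := by
  intro K _ _ q κ₁ hκ T α hT hα0 hα N C hN
  obtain ⟨hq, hκ₁, hbig⟩ : 1 ≤ q ∧ κ₁ ≤ 1 ∧ Pool.Agent.N906.KG.S_BIGQ K q κ₁ := by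
    rcases hκ with ⟨rfl, rfl⟩ | ⟨h, rfl⟩
    · exact ⟨by norm_num, le_rfl, Pool.Agent.N654.QP.bigq3 K⟩
    · exact ⟨by omega, by norm_num, Pool.Agent.N654.QP.bigq K q h⟩
  have hN' : Run7.h585.VL.Cnt T α N C := hN
  refine ⟨fun E κ hE => ?_, fun t c ε ht0 ht1 hε => ⟨Run7.h585.VL.VJ_finite N α t c, ?_⟩⟩
  · obtain ⟨η, hη, hb⟩ := hE.corner
    refine ⟨Run7.h585.VL.VS_finite N α E, ?_, fun U hU h3 => ?_⟩
    · exact Run7.h585.VL.law hq hκ₁ hbig hT hα0 hα hN' hE.closed hE.nonneg hE.pos hE.lt hη hb
        (fun g hg g0 g1 => hE.least g hg ⟨g0, g1⟩)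
        (fun g hg g0 g1 => hE.largest g hg ⟨g0, g1⟩)
    · exact Run7.h585.VL.typ hq hκ₁ hbig hT hα0 hα hN' hE.closed hE.nonneg hE.pos hE.lt hη hb
        (fun g hg g0 g1 => hE.least g hg ⟨g0, g1⟩)
        (fun g hg g0 g1 => hE.largest g hg ⟨g0, g1⟩) hU
        (fun g hg g0 g1 => h3 g hg ⟨g0, g1⟩)
  · exact Run7.h585.VL.voj hq hκ₁ hbig hT hα0 hα hN' ht0 ht1 c hε

end Pool.Agent.Results.MP_44a246_nt.VojtaLargeDeviations
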